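import Pool.Agent.W927.MT.Main
import Pool.Agent.W927.MT.Facts
import Pool.Agent.W927.MT.Null
import Pool.Agent.W927.MT.Sep
import Pool.Agent.W927.MT.Ori
import Pool.Agent.W538.MT.Form
import Pool.Agent.W538.MT.Neg
import Pool.Agent.W538.MT.Fun
import Pool.Agent.W515.MT.Enum
import Pool.Agent.W465.MT.ROT
import Pool.Agent.W872.MT.G0A
import Pool.Agent.W872.MT.G0B

/-!
A locally checkable labelling problem that is solvable on all measured graphs with the mass
transport principle but not on all measured graphs.
-/

namespace Pool.Agent.Results.MP_bf3dd3_lc.MassTransportGap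

open Pool.Agent.W927.MT

/-- There is a locally checkable labelling problem for graphs of maximum degree at most `Δ` that
is solvable on every measured graph with the mass transport principle but not on some measured
graph. -/
theorem result : ∃ (Δ : ℕ) (L : LCL Δ),
    (∀ M : MeasuredGraph Δ, M.MTP → L.SolvableOn M) ∧
      ∃ M : MeasuredGraph Δ, ¬ L.SolvableOn M :=
  main Pool.Agent.W538.MT.Form.main Pool.Agent.W515.MT.main Pool.Agent.W538.MT.Fun.main
    (null1 facts) (null2 facts) (lab facts sep ori) Pool.Agent.W465.MT.main
    Pool.Agent.W538.MT.main Pool.Agent.W872.MT.G0A.main Pool.Agent.W872.MT.G0B.main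

end Pool.Agent.Results.MP_bf3dd3_lc.MassTransportGap
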